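import Pool.Agent.H.MP_b12a75.A

set_option autoImplicit false

open Set Filter Topology TopologicalSpace Pool.Agent.H.MP_b12a75

namespace Pool.Agent.Results.MP_b12a75_gt.Yes

/-- functionally closed -/
def FC {X : Type} [TopologicalSpace X] (A : Set X) : Prop :=
  ∃ f : X → ℝ, Continuous f ∧ (∀ x, f x ∈ Icc (0 : ℝ) 1) ∧ A = f ⁻¹' {0}

/-- first functional Lebesgue class -/
def K1 {X : Type} [TopologicalSpace X] (f : X → ℝ) : Prop :=
  ∀ V : Set ℝ, IsOpen V → ∃ F : ℕ → Set X, (∀ n, FC (F n)) ∧ f ⁻¹' V = ⋃ n, F n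

lemma fc {X : Type} [TopologicalSpace X] {A : ℕ → Set X} (h : ∀ n, IsClopen (A n)) :
    FC (⋂ n, A n) := by
  classical
  let _ := metrizableSpaceMetric (ℕ → Bool)
  refine ⟨fun x => min 1 (dist (fun n => decide (x ∈ A n)) fun _ => true), continuous_const.min
    ((continuous_pi fun n => (continuous_bool_rng true).2 (by
      convert h n; ext; simp)).dist continuous_const), fun x => ⟨by positivity, min_le_left _ _⟩, ?_⟩
  ext x
  simp [min_eq_iff, funext_iff]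
  intro h; simp [show (fun n => decide (x ∈ A n)) = fun _ => true by simpa [funext_iff]]

lemma add {X ι : Type} [TopologicalSpace X] {s : Set ι} (h : s.Countable) {A : ι → Set X}
    (e : ∀ i ∈ s, ∃ F : ℕ → Set X, (∀ n, FC (F n)) ∧ A i = ⋃ n, F n) :
    ∃ F : ℕ → Set X, (∀ n, FC (F n)) ∧ ⋃ i ∈ s, A i = ⋃ n, F n := by
  rcases s.eq_empty_or_nonempty with rfl | a
  · exact ⟨fun _ => ⋂ _ : ℕ, ∅, fun _ => fc fun _ => isClopen_empty, by simp [iInter_const]⟩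
  obtain ⟨g, rfl⟩ := h.exists_eq_range a
  choose F f1 f2 using fun n => e (g n) ⟨n, rfl⟩
  exact ⟨fun n => F n.unpair.1 n.unpair.2, fun _ => f1 _ _, by
    rw [biUnion_range, iUnion_unpair]; exact iUnion_congr f2⟩

theorem result : ∃ (X : Type) (_ : TopologicalSpace X) (E : Set X),
    (∀ f : E → ℝ, K1 f → Bornology.IsBounded (range f) →
      ∃ g : X → ℝ, K1 g ∧ Bornology.IsBounded (range g) ∧ ∀ x : E, g x = f x) ∧
    ∃ f : E → ℝ, K1 f ∧ ¬ ∃ g : X → ℝ, K1 g ∧ ∀ x : E, g x = f x := by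
  obtain ⟨L, l⟩ := exL
  have h := l.1
  let G : Filter ℕ := .comk (Good L) ((h.pt 0).mono (empty_subset _)) (fun _ a _ => a.mono)
    fun _ a _ => h.un a
  let X := {u : Ultrafilter ℕ // (∃ n, u = pure n) ∨ R0 u ∧ ↑u ≤ G}
  let ι : ℕ → X := fun n => ⟨pure n, .inl ⟨n, rfl⟩⟩
  have i : Function.Injective ι := fun a b e => Ultrafilter.pure_injective (congrArg Subtype.val e)
  let _ : TopologicalSpace X := generateFrom ((fun A => {u | A ∈ u.1}) '' L)
  have b : IsTopologicalBasis ((fun A => {u : X | A ∈ u.1}) '' L) :=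
    ⟨by
      rintro _ ⟨A, a, rfl⟩ _ ⟨B, b, rfl⟩ x e
      exact ⟨_, ⟨_, h.2.2.1 A a B b, rfl⟩, inter_mem e.1 e.2, fun _ => inter_mem_iff.1⟩,
      sUnion_eq_univ_iff.2 fun x => ⟨_, ⟨_, h.top, rfl⟩, univ_mem⟩, rfl⟩
  have c : ∀ A ∈ L, IsClopen {u : X | A ∈ u.1} := fun A a => ⟨⟨by
    convert b.isOpen ⟨_, h.2.1 A a, rfl⟩ using 1; ext; exact Ultrafilter.compl_mem_iff_notMem.symm⟩,
      b.isOpen ⟨A, a, rfl⟩⟩
  have p : ∀ n, {ι n} = ⋂ m, {u : X | (res n m)ᶜ ∈ u.1} := fun n => Set.ext fun u =>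
    ⟨fun e => mem_iInter.2 fun m => by simp [show u = ι n from e, ι, res], fun e => by
      obtain ⟨u, ⟨k, rfl⟩ | a⟩ := u
      · have := mem_iInter.1 e (k + n)
        simp only [res, mem_ofPred, Ultrafilter.mem_pure, mem_compl_iff, not_not] at this
        rw [Nat.mod_eq_of_lt (by omega), Nat.mod_eq_of_lt (by omega)] at this
        exact congrArg ι this
      · obtain ⟨m, a⟩ := a.1 n
        exact (Ultrafilter.compl_mem_iff_notMem.1 (mem_iInter.1 e m) a).elim⟩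
  have s : ∀ S : Set ℕ, ∃ F : ℕ → Set X, (∀ n, FC (F n)) ∧ {u : X | S ∈ u.1} = ⋃ n, F n := by
    intro S
    obtain ⟨C, c1, c2⟩ := appr l S
    have k : ∀ u : Ultrafilter ℕ, ↑u ≤ G → (S ∈ u ↔ C ∈ u) := fun u a => eventually_congr
      (mem_of_superset (a (compl_mem_comk.2 c2)) fun _ => not_not.1)
    obtain ⟨Z, z1, z2, z3⟩ := c2
    obtain ⟨F, f1, f2⟩ := add ((z1.image fun A => ⋂ j, {u : X | C ∩ A j ∈ u.1}).union
      ((to_countable S).image fun n => {ι n})) (A := id) (by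
        rintro _ (⟨A, a, rfl⟩ | ⟨n, -, rfl⟩)
        · exact ⟨_, fun _ => fc fun j => c _ (h.2.2.1 _ c1 _ ((z2 A a).1 j)), (iUnion_const _).symm⟩
        · exact ⟨fun _ => {ι n}, fun _ => p n ▸ fc fun j => c _ (h.2.1 _ (h.1 _ _)),
            (iUnion_const _).symm⟩)
    refine ⟨F, f1, f2 ▸ Set.ext fun u => ⟨fun e => ?_, ?_⟩⟩
    · obtain ⟨u, ⟨n, rfl⟩ | a⟩ := u
      · exact mem_biUnion (.inr ⟨n, e, rfl⟩) rfl
      · obtain ⟨A, a1, a2⟩ := z3 u a.1
        exact mem_biUnion (.inl ⟨A, a1, rfl⟩) (mem_iInter.2 fun j =>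
          inter_mem ((k u a.2).1 e) (a2 j))
    · rintro ⟨_, ⟨_, rfl⟩, _, ⟨⟨A, a, rfl⟩ | ⟨n, e, rfl⟩, rfl⟩, d⟩
      · replace d := mem_iInter.1 d
        obtain ⟨u, ⟨n, rfl⟩ | e⟩ := u
        · exact not_not.1 fun e => ((z2 A a).2 n fun k => e (k.2 (d 0).1)).elim fun j k => k (d j).2
        · exact (k u e.2).2 (mem_of_superset (d 0) inter_subset_left)
      · cases d; exact e
  choose r hr using fun x : range ι => x.2
  refine ⟨X, inferInstance, range ι, fun f _ f1 => ?_, fun x => r x, fun V _ => ?_, ?_⟩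
  · choose g g1 g2 using fun u : X => f1.isCompact_closure.ultrafilter_le_nhds
      (u.1.map fun n => f ⟨_, n, rfl⟩) (le_principal_iff.2 (mem_map.2 (univ_mem' fun n =>
        subset_closure ⟨_, rfl⟩)))
    refine ⟨g, fun V v => ?_, f1.closure.subset (range_subset_iff.2 g1), ?_⟩
    · obtain ⟨F, f1, f2⟩ := add ((countable_countableBasis ℝ).mono (sep_subset _ fun t =>
        closure t ⊆ V)) fun t _ => s ((fun n => f ⟨_, n, rfl⟩) ⁻¹' t)
      refine ⟨F, f1, f2 ▸ Set.ext fun u => ⟨fun e => ?_, fun e => ?_⟩⟩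
      · obtain ⟨t, t1, t2, t3⟩ := (isBasis_countableBasis ℝ).exists_closure_subset (v.mem_nhds e)
        exact mem_biUnion ⟨t1, t3⟩ (g2 u ((isOpen_of_mem_countableBasis t1).mem_nhds t2))
      · obtain ⟨t, t1, t2⟩ := mem_iUnion₂.1 e
        exact t1.2 (mem_closure_of_tendsto (g2 u) t2)
    · rintro ⟨_, n, rfl⟩
      exact tendsto_nhds_unique (g2 (ι n)) (tendsto_pure_nhds _ n)
  · obtain ⟨F, f1, f2⟩ := s {n | (n : ℝ) ∈ V}
    refine ⟨fun n => Subtype.val ⁻¹' F n, fun n => (f1 n).elim fun g e => ⟨g ∘ Subtype.val,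
      e.1.comp continuous_subtype_val, fun _ => e.2.1 _, congrArg _ e.2.2⟩, ?_⟩
    rw [← preimage_iUnion, ← f2]
    ext x
    rw [mem_preimage, mem_preimage, ← hr x]; rfl
  · rintro ⟨g, g1, g2⟩
    choose F f1 f2 using fun m : ℕ => g1 _ (isOpen_Iio (a := (m : ℝ)))
    obtain ⟨u, u1, u2, u3⟩ := h.baire (G := G) (fun C c d D e => by_contra fun k => h.bad c d
      (.mono e fun x a b => k ⟨x, a, b⟩)) h.top univ_nonempty (fun k D => ∀ u : X, D ∈ u.1 →
        u ∉ F k.unpair.1 k.unpair.2) fun k C c d _ => by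
      obtain ⟨n, n1, n2⟩ := (h.2.2.2 C c d).exists_gt k.unpair.1
      obtain ⟨φ, a, -, e⟩ := f1 k.unpair.1 k.unpair.2
      obtain ⟨_, ⟨D, d1, rfl⟩, d2, d3⟩ := b.exists_subset_of_mem_open (a := ι n) (fun a => by
        have := (f2 _).ge (mem_iUnion.2 ⟨_, a⟩)
        rw [mem_preimage, g2 ⟨_, n, rfl⟩] at this
        simp only [i (hr ⟨_, n, rfl⟩)] at this
        exact n2.not_gt (Nat.cast_lt.1 (mem_Iio.1 this))) (e ▸ isClosed_singleton.preimage a).isOpen_compl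
      exact ⟨D, d1, ⟨n, n1, d2⟩, d3⟩
    obtain ⟨m, hm⟩ := exists_nat_gt (g ⟨u, .inr ⟨u2, u1⟩⟩)
    obtain ⟨j, hj⟩ := mem_iUnion.1 ((f2 m).le hm)
    obtain ⟨D, d1, d2⟩ := u3 (Nat.pair m j)
    exact d2 _ d1 (by simpa)

end Pool.Agent.Results.MP_b12a75_gt.Yes
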